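import Pool.Agent.X232.BB.Fin

set_option autoImplicit false

/-!
A group whose finitary ballean is so-bounded but not bo-bounded.
-/

namespace Pool.Agent.Results.MP_769d7c_al.SoBoundedNotBoBounded

open Set

/-- `E_F[x] = {x} ∪ F x` -/
def ball {G : Type} [Group G] (F : Set G) (x : G) : Set G :=
  {x} ∪ {y | ∃ k ∈ F, y = k * x}

/-- `f` is boundedly oscillating: for some `C > 0` and every finite `F`,
`diam f(E_F[x]) < C` outside a finite set. -/
def BoundedlyOscillating {G : Type} [Group G] (f : G → ℝ) : Prop :=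
  ∃ C : ℝ, 0 < C ∧ ∀ F : Set G, F.Finite →
    ∃ B : Set G, B.Finite ∧ ∀ x, x ∉ B → Metric.diam (f '' ball F x) < C

/-- `f` is slowly oscillating: for every finite `F` and `ε > 0`,
`diam f(E_F[x]) < ε` outside a finite set. -/
def SlowlyOscillating {G : Type} [Group G] (f : G → ℝ) : Prop :=
  ∀ F : Set G, F.Finite → ∀ ε : ℝ, 0 < ε →
    ∃ B : Set G, B.Finite ∧ ∀ x, x ∉ B → Metric.diam (f '' ball F x) < ε

/-- `f` is bounded outside a finite set. -/
def BoundedOffFinite {G : Type} (f : G → ℝ) : Prop :=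
  ∃ B : Set G, B.Finite ∧ ∃ C : ℝ, ∀ x, x ∉ B → |f x| ≤ C

/-- the finitary ballean of `G` is bo-bounded -/
def BoBounded (G : Type) [Group G] : Prop :=
  ∀ f : G → ℝ, BoundedlyOscillating f → BoundedOffFinite f

/-- the finitary ballean of `G` is so-bounded -/
def SoBounded (G : Type) [Group G] : Prop :=
  ∀ f : G → ℝ, SlowlyOscillating f → BoundedOffFinite f

theorem result : ∃ (G : Type) (_ : Group G), SoBounded G ∧ ¬ BoBounded G := by
  refine ⟨X232.BB.G, inferInstance, ?_, ?_⟩
  · intro f hf
    have h1 : ∀ k : X232.BB.G, ∀ ε : ℝ, 0 < ε → {x | ε ≤ |f (k * x) - f x|}.Finite := by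
      intro k ε hε
      obtain ⟨B, hB, h⟩ := hf {k} (Set.finite_singleton k) ε hε
      refine hB.subset ?_
      intro x hx
      by_contra hxB
      have hlt := h x hxB
      have hfin : (ball ({k} : Set X232.BB.G) x).Finite := by
        refine (Set.finite_singleton x).union ?_
        refine (Set.finite_singleton (k * x)).subset ?_
        rintro y ⟨k', hk', rfl⟩
        rw [mem_singleton_iff] at hk'
        rw [hk']; rfl
      have hbd : Bornology.IsBounded (f '' ball ({k} : Set X232.BB.G) x) :=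
        (hfin.image f).isBounded
      have hle : dist (f (k * x)) (f x) ≤ Metric.diam (f '' ball ({k} : Set X232.BB.G) x) :=
        Metric.dist_le_diam_of_mem hbd
          ⟨k * x, Or.inr ⟨k, rfl, rfl⟩, rfl⟩ ⟨x, Or.inl rfl, rfl⟩
      have hx' : ε ≤ |f (k * x) - f x| := hx
      rw [Real.dist_eq] at hle
      linarith
    obtain ⟨c, hc⟩ := X232.BB.G_converges h1
    refine ⟨_, hc 1 one_pos, |c| + 1, ?_⟩
    intro x hx
    have hx' : |f x - c| < 1 := not_le.1 hx
    have : |f x| ≤ |f x - c| + |c| := by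
      have h2 : f x = (f x - c) + c := by ring
      conv_lhs => rw [h2]
      exact abs_add_le _ _
    linarith
  · intro h
    have hbo : BoundedlyOscillating X232.BB.ff := by
      refine ⟨5, by norm_num, fun F hF => ?_⟩
      refine ⟨⋃ k ∈ F, {x | 2 < |X232.BB.ff (k * x) - X232.BB.ff x|},
        hF.biUnion fun k _ => X232.BB.ff_bo k, ?_⟩
      intro x hx
      have hx2 : ∀ k ∈ F, |X232.BB.ff (k * x) - X232.BB.ff x| ≤ 2 := by
        intro k hk
        by_contra hcon
        exact hx (mem_biUnion hk (not_le.1 hcon))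
      have hx3 : ∀ y ∈ ball F x, |X232.BB.ff y - X232.BB.ff x| ≤ 2 := by
        rintro y (hy | ⟨k, hk, rfl⟩)
        · rw [mem_singleton_iff.1 hy, sub_self, abs_zero]
          norm_num
        · exact hx2 k hk
      have hd : Metric.diam (X232.BB.ff '' ball F x) ≤ 4 := by
        refine Metric.diam_le_of_forall_dist_le (by norm_num) ?_
        rintro _ ⟨y, hy, rfl⟩ _ ⟨z, hz, rfl⟩
        rw [Real.dist_eq]
        have e1 := abs_le.1 (hx3 y hy)
        have e2 := abs_le.1 (hx3 z hz)
        rw [abs_le]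
        constructor <;> linarith [e1.1, e1.2, e2.1, e2.2]
      linarith
    obtain ⟨B, hB, C, hC⟩ := h _ hbo
    obtain ⟨x, hx, hx'⟩ := X232.BB.ff_unbounded B hB C
    exact absurd (hC x hx) (not_le.2 hx')

end Pool.Agent.Results.MP_769d7c_al.SoBoundedNotBoBounded
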